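import Pool.Agent.K3h26.R6.Stm
import Pool.Agent.K3h79.R5.Body

/-! Brick BODY of project R6 (helper26): the convex body and its packings, every dimension.
Adapted from `Pool.Agent.K3h79.R5.Body`. -/

set_option autoImplicit false
set_option linter.all false

open MeasureTheory Filter Topology Set
open scoped ENNReal

namespace Pool.Agent.K3h90.R6

open H947TP Pool.Agent.K3h26.R6
open Pool.Agent.K3h79.R5 (Gau bod bod_facts packing_iff)

variable {p : ℕ}

theorem abs_cv {D : ℕ} {a c : ℝ} (ha : 0 ≤ a) (hc : 0 ≤ c) (x y : Fin D → ℝ) (k : Fin D) :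
    |(a • x + c • y) k| ≤ a * |x k| + c * |y k| := by
  simp only [Pi.add_apply, Pi.smul_apply, smul_eq_mul]
  refine (abs_add_le _ _).trans ?_
  rw [abs_mul a, abs_mul c, abs_of_nonneg ha, abs_of_nonneg hc]

theorem n1_cv {a c : ℝ} (ha : 0 ≤ a) (hc : 0 ≤ c) (x y : Fin (p + 5) → ℝ) :
    n1 (a • x + c • y) ≤ a * n1 x + c * n1 y := by
  unfold n1
  have h0 := abs_cv ha hc x y 0
  have h1 := abs_cv ha hc x y 1
  have h2 := abs_cv ha hc x y 2
  rw [mul_add, mul_add, mul_add, mul_add]
  linarith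

theorem sy_cv {a c : ℝ} (ha : 0 ≤ a) (hc : 0 ≤ c) (x y : Fin (p + 5) → ℝ) :
    sy (a • x + c • y) ≤ a * sy x + c * sy y := by
  unfold sy
  have h1 : ∑ l, |yy (a • x + c • y) l| ≤ a * ∑ l, |yy x l| + c * ∑ l, |yy y l| := by
    rw [Finset.mul_sum, Finset.mul_sum, ← Finset.sum_add_distrib]
    exact Finset.sum_le_sum fun l _ => abs_cv ha hc x y l.succ.succ.succ
  have h2 : (0 : ℝ) < (p : ℝ) + 2 := by positivity
  rw [← mul_div_assoc, ← mul_div_assoc, ← add_div]
  exact div_le_div_of_nonneg_right h1 h2.le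

theorem my_cv {a c : ℝ} (ha : 0 ≤ a) (hc : 0 ≤ c) (x y : Fin (p + 5) → ℝ) :
    my (a • x + c • y) ≤ a * my x + c * my y := by
  unfold my
  refine max_le ((abs_cv ha hc x y 3).trans ?_) ((abs_cv ha hc x y 4).trans ?_)
  · exact add_le_add (mul_le_mul_of_nonneg_left (le_max_left _ _) ha)
      (mul_le_mul_of_nonneg_left (le_max_left _ _) hc)
  · exact add_le_add (mul_le_mul_of_nonneg_left (le_max_right _ _) ha)
      (mul_le_mul_of_nonneg_left (le_max_right _ _) hc)

theorem nq_cv {a c : ℝ} (ha : 0 ≤ a) (hc : 0 ≤ c) (x y : Fin (p + 5) → ℝ) :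
    nq (a • x + c • y) ≤ a * nq x + c * nq y := by
  unfold nq
  have e : yy (a • x + c • y) = a • yy x + c • yy y := by
    funext l
    rfl
  rw [e]
  refine (norm_add_le _ _).trans ?_
  rw [norm_smul, norm_smul, Real.norm_of_nonneg ha, Real.norm_of_nonneg hc]

theorem ni_cv {a c : ℝ} (ha : 0 ≤ a) (hc : 0 ≤ c) (x y : Fin (p + 5) → ℝ) :
    ni (a • x + c • y) ≤ a * ni x + c * ni y := by
  unfold ni
  refine max_le ((abs_cv ha hc x y 0).trans ?_) (max_le ((abs_cv ha hc x y 1).trans ?_)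
    ((abs_cv ha hc x y 2).trans ?_))
  · exact add_le_add (mul_le_mul_of_nonneg_left (le_max_left _ _) ha)
      (mul_le_mul_of_nonneg_left (le_max_left _ _) hc)
  · exact add_le_add
      (mul_le_mul_of_nonneg_left ((le_max_left _ _).trans (le_max_right _ _)) ha)
      (mul_le_mul_of_nonneg_left ((le_max_left _ _).trans (le_max_right _ _)) hc)
  · exact add_le_add
      (mul_le_mul_of_nonneg_left ((le_max_right _ _).trans (le_max_right _ _)) ha)
      (mul_le_mul_of_nonneg_left ((le_max_right _ _).trans (le_max_right _ _)) hc)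

theorem cont_yy : Continuous fun v : Fin (p + 5) → ℝ => yy v :=
  continuous_pi fun l => continuous_apply l.succ.succ.succ

/-- the gauges -/
noncomputable def g3 (p : ℕ) (lam ε : ℝ) : Fin 3 → (Fin (p + 5) → ℝ) → ℝ :=
  ![fun v => n1 v / 3 + ε * rh lam v, fun v => ni v / 2 + ε * sy v, fun v => nq v]

theorem gau_g3 {lam ε : ℝ} (h0 : 0 ≤ lam) (h1 : lam ≤ 1) (hε : 0 < ε) (hε1 : ε ≤ 1) :
    Gau (g3 p lam ε) := by
  refine ⟨?_, ?_, ?_, ?_⟩
  · intro i
    fin_cases i
    · show Continuous fun v : Fin (p + 5) → ℝ => n1 v / 3 + ε * rh lam v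
      unfold n1 rh my
      fun_prop
    · show Continuous fun v : Fin (p + 5) → ℝ => ni v / 2 + ε * sy v
      unfold ni sy yy
      fun_prop
    · show Continuous fun v : Fin (p + 5) → ℝ => nq v
      unfold nq
      exact cont_yy.norm
  · intro i v
    fin_cases i
    · show n1 (-v) / 3 + ε * rh lam (-v) = n1 v / 3 + ε * rh lam v
      simp only [n1, rh, my, Pi.neg_apply, abs_neg]
    · show ni (-v) / 2 + ε * sy (-v) = ni v / 2 + ε * sy v
      simp only [ni, sy, yy, Pi.neg_apply, abs_neg]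
    · show nq (-v) = nq v
      unfold nq
      have e : yy (-v) = -yy v := by
        funext l
        rfl
      rw [e, norm_neg]
  · intro i
    fin_cases i
    · show n1 (0 : Fin (p + 5) → ℝ) / 3 + ε * rh lam (0 : Fin (p + 5) → ℝ) < 1
      simp only [n1, rh, my, Pi.zero_apply, abs_zero, max_self, mul_zero, add_zero, zero_div,
        zero_add]
      nlinarith
    · show ni (0 : Fin (p + 5) → ℝ) / 2 + ε * sy (0 : Fin (p + 5) → ℝ) < 1
      simp [ni, sy, yy]
    · show nq (0 : Fin (p + 5) → ℝ) < 1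
      unfold nq
      have e : yy (0 : Fin (p + 5) → ℝ) = 0 := by
        funext l
        rfl
      rw [e, norm_zero]
      exact one_pos
  · intro i x y a c ha hc hac
    fin_cases i
    · show n1 (a • x + c • y) / 3 + ε * rh lam (a • x + c • y) ≤
        a * (n1 x / 3 + ε * rh lam x) + c * (n1 y / 3 + ε * rh lam y)
      have h2 := n1_cv ha hc x y
      have h3 := mul_le_mul_of_nonneg_left (mul_le_mul_of_nonneg_left (my_cv ha hc x y) h0) hε.le
      have h4 : c = 1 - a := by linarith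
      have e : a * (n1 x / 3 + ε * rh lam x) + c * (n1 y / 3 + ε * rh lam y) =
          (a * n1 x + c * n1 y) / 3 + ε * ((1 - lam) / 2) +
            ε * (lam * (a * my x + c * my y)) := by
        unfold rh
        rw [h4]
        ring
      rw [e]
      unfold rh
      rw [mul_add]
      linarith
    · show ni (a • x + c • y) / 2 + ε * sy (a • x + c • y) ≤
        a * (ni x / 2 + ε * sy x) + c * (ni y / 2 + ε * sy y)
      have h2 := ni_cv ha hc x y
      have h3 := mul_le_mul_of_nonneg_left (sy_cv ha hc x y) hε.le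
      have e : a * (ni x / 2 + ε * sy x) + c * (ni y / 2 + ε * sy y) =
          (a * ni x + c * ni y) / 2 + ε * (a * sy x + c * sy y) := by ring
      rw [e]
      linarith
    · exact nq_cv ha hc x y

theorem body_eq (p : ℕ) (lam ε : ℝ) : body p lam ε = bod (g3 p lam ε) := by
  ext x
  have e : (fun i => 2 * x i) = (2 : ℝ) • x := by
    funext i
    simp
  constructor
  · rintro ⟨h0, h1, h2⟩ i
    rw [e] at h0 h1 h2
    fin_cases i
    · exact h0
    · exact h1
    · exact h2
  · intro h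
    refine ⟨?_, ?_, ?_⟩
    · rw [e]
      exact h 0
    · rw [e]
      exact h 1
    · rw [e]
      exact h 2

theorem bod_sub {lam ε : ℝ} (hε : 0 < ε) : bod (g3 p lam ε) ⊆ Metric.closedBall 0 1 := by
  intro x hx
  rw [← body_eq] at hx
  obtain ⟨_, h1, h2⟩ := hx
  rw [mem_closedBall_zero_iff, pi_norm_le_iff_of_nonneg zero_le_one]
  have hs : 0 ≤ sy (fun i => 2 * x i) := by
    unfold sy
    have := Finset.sum_nonneg fun (l : Fin (p + 2)) (_ : l ∈ Finset.univ) =>
      abs_nonneg (yy (fun i => 2 * x i) l)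
    positivity
  have h3 : ni (fun i => 2 * x i) ≤ 2 := by
    have := mul_nonneg hε.le hs
    linarith
  have h4 : ∀ k, |2 * x k| = 2 * |x k| := by
    intro k
    rw [abs_mul, abs_two]
  unfold ni at h3
  unfold nq at h2
  rw [max_le_iff, max_le_iff] at h3
  obtain ⟨a0, a1, a2⟩ := h3
  rw [h4] at a0 a1 a2
  intro k
  rw [Real.norm_eq_abs]
  refine Fin.cases ?_ (fun k => ?_) k
  · linarith
  refine Fin.cases ?_ (fun k => ?_) k
  · show |x 1| ≤ 1
    linarith
  refine Fin.cases ?_ (fun k => ?_) k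
  · show |x 2| ≤ 1
    linarith
  · have h5 := (pi_norm_le_iff_of_nonneg zero_le_one).1 h2 k
    have h6 : |2 * x k.succ.succ.succ| ≤ 1 := h5
    rw [h4] at h6
    linarith

theorem t_BODY : S_BODY := by
  intro p lam ε h0 h1 hε hε1
  have hg := gau_g3 (p := p) h0 h1 hε hε1
  obtain ⟨a1, a2, a3, a4, a5, a6⟩ := bod_facts hg 1 (bod_sub hε)
  rw [body_eq]
  refine ⟨a1, a2, a3, a4, a5, a6, fun X => ?_⟩
  rw [packing_iff hg X]
  have h2 : ∀ v, (∃ i, 1 ≤ g3 p lam ε i v) ↔ Sep lam ε v := by
    intro v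
    constructor
    · rintro ⟨i, hi⟩
      fin_cases i
      · exact Or.inl hi
      · exact Or.inr (Or.inl hi)
      · exact Or.inr (Or.inr hi)
    · rintro (h | h | h)
      · exact ⟨0, h⟩
      · exact ⟨1, h⟩
      · exact ⟨2, h⟩
  constructor
  · intro h x hx y hy hxy
    exact (h2 _).1 (h x hx y hy hxy)
  · intro h x hx y hy hxy
    exact (h2 _).2 (h x hx y hy hxy)

end Pool.Agent.K3h90.R6
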